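import Mathlib
import Pool.Agent.H749R6.MG.Core

/-! Bad integers. -/

set_option autoImplicit false

namespace Pool.Agent.H749R6.AM

open Finset Filter Topology
open Pool.Agent.H749R6.MG (P Far Blocks geom exists_idx idx_lt count_bound count_tendsto P_mono P_two)

/-- the bad indices -/
def BadK (K : ℕ) (C : ℝ) (k : ℕ) : Prop := ∀ i < K, P (k + i + 1) - P (k + i) ≤ C * Real.log (P (k + i))

/-- the bad integers -/
def BadN (K : ℕ) (C : ℝ) (n : ℕ) : Prop := ∃ k : ℕ, BadK K C k ∧ P k ≤ n + 1 ∧ (n : ℝ) < P (k + 1)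

theorem bad_count (hB : Blocks) (C ε : ℝ) (hC : 0 < C) (hε : 0 < ε) (hε1 : ε < 1) :
    ∃ K : ℕ, 0 < K ∧ ∀ᶠ T : ℝ in atTop, ∀ S : Finset ℕ, (∀ n ∈ S, (n : ℝ) + 1 ≤ 3 * T ∧ BadN K C n) →
      (S.card : ℝ) ≤ ε * (24 * (2 * C + 3)) * T := by
  classical
  obtain ⟨K, x₀, hK⟩ := hB C ε hε
  have hK0 : 0 < K := by
    rcases Nat.eq_zero_or_pos K with h | h
    · exfalso
      subst h
      have h1 := hK (x₀ + 1) (by omega)
      rw [Finset.filter_true_of_mem (fun k _ i hi => absurd hi (by omega)), Finset.card_range] at h1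
      have h2 : (0 : ℝ) < ((x₀ + 1 : ℕ) : ℝ) := by positivity
      nlinarith
    · exact h
  refine ⟨K, hK0, ?_⟩
  have e1 := (count_tendsto 3 (by norm_num)).eventually_ge_atTop x₀
  have e2 := count_bound 3 (by norm_num)
  have e3 : ∀ᶠ T : ℝ in atTop, Real.log 3 ≤ Real.log T :=
    Real.tendsto_log_atTop.eventually_ge_atTop _
  filter_upwards [e1, e2, e3, eventually_ge_atTop (3 : ℝ)] with T h1 h2 h3 h4 S hS
  have hT0 : 0 < T := by linarith
  have hlog3 : 1 ≤ Real.log 3 := by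
    rw [Real.le_log_iff_exp_le (by norm_num)]
    have := Real.exp_one_lt_d9
    linarith
  have hlogT : 1 ≤ Real.log T := hlog3.trans h3
  set M := Nat.primeCounting ⌊3 * T⌋₊ with hM
  have hbad := hK M h1
  set B := (Finset.range M).filter (fun k : ℕ => ∀ i < K,
    P (k + i + 1) - P (k + i) ≤ C * Real.log (P (k + i))) with hBd
  set W : ℝ := 2 * C * Real.log T + 3 with hW
  -- cover
  have hcov : S ⊆ B.biUnion (fun k => Finset.Icc (Nat.nth Nat.Prime k - 1) (Nat.nth Nat.Prime (k + 1))) := by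
    intro n hn
    obtain ⟨hn1, k, hk1, hk2, hk3⟩ := hS n hn
    rw [Finset.mem_biUnion]
    refine ⟨k, ?_, ?_⟩
    · rw [hBd, Finset.mem_filter, Finset.mem_range]
      exact ⟨idx_lt 3 T k (hk2.trans hn1), hk1⟩
    · rw [Finset.mem_Icc]
      have a1 : Nat.nth Nat.Prime k ≤ n + 1 := by
        unfold P at hk2
        exact_mod_cast hk2
      have a2 : n < Nat.nth Nat.Prime (k + 1) := by
        unfold P at hk3
        exact_mod_cast hk3
      omega
  have hsize : ∀ k ∈ B, (((Finset.Icc (Nat.nth Nat.Prime k - 1) (Nat.nth Nat.Prime (k + 1))).card : ℕ) : ℝ)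
      ≤ W := by
    intro k hk
    rw [hBd, Finset.mem_filter, Finset.mem_range] at hk
    obtain ⟨hk1, hk2⟩ := hk
    have a1 := hk2 0 hK0
    simp only [add_zero] at a1
    have a2 : P k ≤ 3 * T := by
      have b1 : Nat.nth Nat.Prime k ≤ ⌊3 * T⌋₊ := by
        by_contra hcon
        push Not at hcon
        have b2 : M ≤ Nat.count Nat.Prime (Nat.nth Nat.Prime k) := by
          rw [hM, Nat.primeCounting, Nat.primeCounting']
          exact Nat.count_monotone _ (by omega)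
        rw [Nat.count_nth_of_infinite Nat.infinite_setOfPred_prime] at b2
        omega
      calc P k = (Nat.nth Nat.Prime k : ℝ) := rfl
        _ ≤ (⌊3 * T⌋₊ : ℝ) := by exact_mod_cast b1
        _ ≤ 3 * T := Nat.floor_le (by positivity)
    have a3 : Real.log (P k) ≤ 2 * Real.log T := by
      have b1 : Real.log (P k) ≤ Real.log (3 * T) :=
        Real.log_le_log (by linarith [P_two k]) a2
      rw [Real.log_mul (by norm_num) (by linarith)] at b1
      linarith
    have a4 : C * Real.log (P k) ≤ C * (2 * Real.log T) := mul_le_mul_of_nonneg_left a3 hC.le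
    rw [Nat.card_Icc]
    have a5 : 2 ≤ Nat.nth Nat.Prime k := by
      have := P_two k
      unfold P at this
      exact_mod_cast this
    have a6 : Nat.nth Nat.Prime k ≤ Nat.nth Nat.Prime (k + 1) := by
      have := P_mono (show k ≤ k + 1 by omega)
      unfold P at this
      exact_mod_cast this
    have a7 : ((Nat.nth Nat.Prime (k + 1) + 1 - (Nat.nth Nat.Prime k - 1) : ℕ) : ℝ) =
        P (k + 1) - P k + 2 := by
      unfold P
      rw [show Nat.nth Nat.Prime (k + 1) + 1 - (Nat.nth Nat.Prime k - 1) =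
        Nat.nth Nat.Prime (k + 1) - Nat.nth Nat.Prime k + 2 by omega]
      push_cast [Nat.cast_sub a6]
      ring
    rw [a7, hW]
    linarith
  have hc1 : (S.card : ℝ) ≤ B.card * W := by
    have b1 : (S.card : ℝ) ≤ ∑ k ∈ B,
        ((Finset.Icc (Nat.nth Nat.Prime k - 1) (Nat.nth Nat.Prime (k + 1))).card : ℝ) := by
      exact_mod_cast (Finset.card_le_card hcov).trans Finset.card_biUnion_le
    refine b1.trans ?_
    calc _ ≤ ∑ k ∈ B, W := Finset.sum_le_sum hsize
      _ = B.card * W := by rw [Finset.sum_const, nsmul_eq_mul]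
  have hW0 : 0 ≤ W := by positivity
  have hWle : W ≤ (2 * C + 3) * Real.log T := by
    rw [hW]
    nlinarith
  calc (S.card : ℝ) ≤ B.card * W := hc1
    _ ≤ (ε * M) * W := by gcongr
    _ ≤ (ε * (8 * 3 * (T / Real.log T))) * ((2 * C + 3) * Real.log T) := by gcongr
    _ = ε * (24 * (2 * C + 3)) * T := by
        field_simp
        ring

theorem good_point (C : ℝ) (hC : 0 < C) (u : ℝ) (hu : 0 < u) (hu2 : u ≤ 2) (K : ℕ) :
    ∃ L : ℝ, 0 < L ∧ ∀ᶠ T : ℝ in atTop, ∀ y : ℝ, u * T ≤ y → y ≤ 2 * T →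
      (¬ ∃ z : ℝ, |z - y| ≤ L * Real.log T ∧ Far (C * Real.log T) z) →
      ∃ n : ℕ, (n : ℝ) < y ∧ y - 2 < n ∧ BadN K (8 * C) n := by
  obtain ⟨L, hL, hev⟩ := geom u 2 C hu hu2 hC K
  refine ⟨L, hL, ?_⟩
  have e1 : ∀ᶠ T : ℝ in atTop, 4 ≤ u * T :=
    (tendsto_id.const_mul_atTop hu).eventually_ge_atTop 4
  filter_upwards [hev, e1, eventually_gt_atTop (1 : ℝ)] with T h1 h2 h3 y hy1 hy2 hno
  have hlog : 0 < Real.log T := Real.log_pos h3
  have hy4 : 4 ≤ y := by linarith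
  obtain ⟨k, hk1, hk2⟩ := exists_idx y (by linarith)
  have hfar : ¬ Far (C * Real.log T) y := by
    intro hf
    exact hno ⟨y, by rw [sub_self, abs_zero]; positivity, hf⟩
  have hbad : BadK K (8 * C) k := by
    intro i hi
    by_contra hcon
    push Not at hcon
    obtain ⟨z, hz1, hz2⟩ := h1 y hy1 hy2 k hk1 hk2 hfar ⟨i, hi, hcon⟩
    exact hno ⟨z, hz1, hz2 z (by rw [sub_self, abs_zero]; positivity)⟩
  have hc1 : (1 : ℕ) ≤ ⌈y⌉₊ := by
    rw [Nat.one_le_ceil_iff]
    linarith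
  have hc2 : ((⌈y⌉₊ - 1 : ℕ) : ℝ) = ⌈y⌉₊ - 1 := by
    push_cast [Nat.cast_sub hc1]
    ring
  have hc3 : (⌈y⌉₊ : ℝ) < y + 1 := Nat.ceil_lt_add_one (by linarith)
  have hc4 : y ≤ ⌈y⌉₊ := Nat.le_ceil y
  refine ⟨⌈y⌉₊ - 1, by rw [hc2]; linarith, by rw [hc2]; linarith, k, hbad, ?_, ?_⟩
  · rw [hc2]
    linarith
  · rw [hc2]
    linarith

end Pool.Agent.H749R6.AM
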