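import Pool.Agent.H749R6.AM.Main
import Pool.Agent.H749R6.MG.Bl
import Pool.Agent.H438R2.DL.App2

/-! Large gaps near almost all multiples of almost every real: assembly. -/

set_option autoImplicit false

namespace Pool.Agent.H749R6.AM

theorem multiples : ∀ (δ C ε : ℝ), 0 < δ → δ < 1 → 0 < C → 0 < ε → ε < 1 →
    ∃ L κ : ℝ, 0 < L ∧ 0 < κ ∧
      ∃ Y₀ : ℝ, ∀ Y : ℝ, Y₀ ≤ Y →
        ∃ E : Set ℝ, MeasurableSet E ∧ MeasureTheory.volume E ≤ ENNReal.ofReal (Y ^ (1 - κ)) ∧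
        ∀ x : ℝ, Y ≤ x → x ≤ 2 * Y → x ∉ E →
          ({k : ℕ | (k : ℝ) ≤ Y ^ δ ∧ ¬ ∃ z : ℝ, |z - k * x| ≤ L * Real.log Y ∧
            ∀ p : ℕ, p.Prime → C * Real.log Y < |z - p|}.ncard : ℝ) ≤ ε * Y ^ δ :=
  main_abs Pool.Agent.H749R6.MG.blocks Pool.Agent.H438R2.DL.pairs_asymp

end Pool.Agent.H749R6.AM
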