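import Mathlib
import Pool.Agent.H749R6.AM.Bad

/-! Large gaps near almost all multiples of almost every real number: assembly. -/

set_option autoImplicit false

namespace Pool.Agent.H749R6.AM

open Finset MeasureTheory Filter Topology
open Pool.Agent.H749R6.MG (Far Blocks)

lemma dyadic (X v : ℕ) : ∀ I : ℕ, X < v → v ≤ 2 ^ I * X →
    ∃ i < I, 2 ^ i * X < v ∧ v ≤ 2 * (2 ^ i * X) := by
  intro I
  induction I with
  | zero =>
    intro h1 h2
    rw [pow_zero, one_mul] at h2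
    omega
  | succ I ih =>
    intro h1 h2
    by_cases h3 : v ≤ 2 ^ I * X
    · obtain ⟨i, hi, h4⟩ := ih h1 h3
      exact ⟨i, by omega, h4⟩
    · refine ⟨I, by omega, by omega, ?_⟩
      rw [pow_succ] at h2
      calc v ≤ 2 ^ I * 2 * X := h2
        _ = 2 * (2 ^ I * X) := by ring

/-- the pairs -/
def Prs (P : Finset ℕ) (x : ℝ) : Set (ℕ × ℕ) :=
  {q : ℕ × ℕ | q.2 ∈ P ∧ (q.1 : ℝ) * x - 2 < q.2 ∧ (q.2 : ℝ) < q.1 * x}

lemma prs_finite (P : Finset ℕ) (X : ℕ) (hP : P ⊆ Ioc X (2 * X)) (x : ℝ) (hx : 0 < x) :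
    (Prs P x).Finite := by
  refine (Finset.finite_toSet ((Finset.range (⌊(2 * (X : ℝ) + 2) / x⌋₊ + 1)) ×ˢ P)).subset ?_
  rintro ⟨k, n⟩ ⟨h1, h2, h3⟩
  simp only at h1 h2 h3
  rw [Finset.mem_coe, Finset.mem_product, Finset.mem_range]
  refine ⟨Nat.lt_succ_of_le (Nat.le_floor ?_), h1⟩
  have h4 := (Finset.mem_Ioc.1 (hP h1)).2
  have h5 : (n : ℝ) ≤ 2 * X := by exact_mod_cast h4
  rw [le_div_iff₀ hx]
  linarith

theorem main_abs (hB : Blocks)
    (hpairs : ∀ δ : ℝ, 0 < δ → δ < 1 →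
      ∃ κ : ℝ, 0 < κ ∧ ∃ X₀ : ℕ, ∀ X : ℕ, X₀ ≤ X → ∀ P : Finset ℕ, P ⊆ Ioc X (2 * X) →
        ∀ Y h : ℝ, 0 < Y → Y ≤ (X : ℝ) ^ (1 - δ) → (X : ℝ) ^ (-κ) ≤ h → h ≤ Y →
        ∃ E : Set ℝ, MeasurableSet E ∧ volume E ≤ ENNReal.ofReal (Y * (X : ℝ) ^ (-κ)) ∧
        ∀ x : ℝ, Y ≤ x → x ≤ 2 * Y → x ∉ E →
          |({q : ℕ × ℕ | q.2 ∈ P ∧ (q.1 : ℝ) * x - h < q.2 ∧ (q.2 : ℝ) < q.1 * x}.ncard : ℝ) -
            (h / x) * P.card| ≤ (h / x) * (X : ℝ) ^ (1 - κ)) :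
    ∀ (δ C ε : ℝ), 0 < δ → δ < 1 → 0 < C → 0 < ε → ε < 1 → ∃ L κ : ℝ, 0 < L ∧ 0 < κ ∧
      ∃ Y₀ : ℝ, ∀ Y : ℝ, Y₀ ≤ Y →
        ∃ E : Set ℝ, MeasurableSet E ∧ volume E ≤ ENNReal.ofReal (Y ^ (1 - κ)) ∧
        ∀ x : ℝ, Y ≤ x → x ≤ 2 * Y → x ∉ E →
          ({k : ℕ | (k : ℝ) ≤ Y ^ δ ∧ ¬ ∃ z : ℝ, |z - k * x| ≤ L * Real.log Y ∧
            ∀ p : ℕ, p.Prime → C * Real.log Y < |z - p|}.ncard : ℝ) ≤ ε * Y ^ δ := by
  classical
  intro δ C ε hδ hδ1 hC hε hε1
  obtain ⟨κ₁, hκ₁, Xp, hP⟩ := hpairs (δ / 4) (by linarith) (by linarith)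
  set u : ℝ := ε / 2 with hu
  have hu0 : 0 < u := by positivity
  obtain ⟨I, hI⟩ := pow_unbounded_of_one_lt (8 / u) (by norm_num : (1 : ℝ) < 2)
  have hI0 : 0 < I := by
    rcases Nat.eq_zero_or_pos I with h | h
    · exfalso
      rw [h, pow_zero, div_lt_one hu0] at hI
      linarith
    · exact h
  have hIR : (0 : ℝ) < I := by exact_mod_cast hI0
  set A : ℝ := 24 * (2 * (8 * C) + 3) with hA
  have hA1 : 1 ≤ A := by
    rw [hA]
    linarith
  have hA0 : 0 < A := by linarith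
  have hI1 : (1 : ℝ) ≤ I := by exact_mod_cast hI0
  set e : ℝ := ε / (16 * A * I) with he
  have he0 : 0 < e := by positivity
  have he1 : e < 1 := by
    rw [he, div_lt_one (by positivity)]
    nlinarith
  obtain ⟨K, hK0, hcount⟩ := bad_count hB (8 * C) e (by positivity) he0 he1
  obtain ⟨L, hL, hgood⟩ := good_point C hC u hu0 (by linarith) K
  refine ⟨2 * L, κ₁ / 2, by positivity, by positivity, ?_⟩
  have hT : Tendsto (fun Y : ℝ => Y ^ (1 + δ)) atTop atTop := tendsto_rpow_atTop (by positivity)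
  have ev1 := hT.eventually hcount
  have ev2 := hT.eventually hgood
  have ev3 : ∀ᶠ Y : ℝ in atTop, 8 / u ≤ Y ^ (δ / 2) :=
    (tendsto_rpow_atTop (by positivity)).eventually_ge_atTop _
  have ev4 : ∀ᶠ Y : ℝ in atTop, 2 ^ I / (e * A) ≤ Y ^ κ₁ :=
    (tendsto_rpow_atTop hκ₁).eventually_ge_atTop _
  have ev5 : ∀ᶠ Y : ℝ in atTop, (I : ℝ) ≤ Y ^ (κ₁ / 2) :=
    (tendsto_rpow_atTop (by positivity)).eventually_ge_atTop _
  have ev6 : ∀ᶠ Y : ℝ in atTop, 4 / ε ≤ Y ^ δ :=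
    (tendsto_rpow_atTop hδ).eventually_ge_atTop _
  obtain ⟨Y₀, hY₀⟩ := (((ev1.and ev2).and (ev3.and ev4)).and ((ev5.and ev6).and
    (eventually_ge_atTop ((Xp : ℝ) + 8)))).exists_forall_of_atTop
  refine ⟨Y₀, fun Y hY => ?_⟩
  obtain ⟨⟨⟨g1, g2⟩, g3, g4⟩, ⟨g5, g6⟩, g7⟩ := hY₀ Y hY
  have hXpR : (0 : ℝ) ≤ Xp := Nat.cast_nonneg _
  have hY8 : 8 ≤ Y := by linarith
  have hY0 : 0 < Y := by linarith
  have hY1 : 1 ≤ Y := by linarith
  have hlogY : 0 < Real.log Y := Real.log_pos (by linarith)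
  set T : ℝ := Y ^ (1 + δ) with hTd
  have hTY : T = Y * Y ^ δ := by rw [hTd, Real.rpow_add hY0, Real.rpow_one]
  have hYδ0 : 0 < Y ^ δ := by positivity
  have hδY : 8 / u ≤ Y ^ δ := g3.trans (Real.rpow_le_rpow_of_exponent_le hY1 (by linarith))
  have hδY' : 8 ≤ u * Y ^ δ := by
    rw [div_le_iff₀ hu0] at hδY
    linarith
  have hlogT : Real.log T ≤ 2 * Real.log Y := by
    rw [hTd, Real.log_rpow hY0]
    nlinarith
  have hlogT' : Real.log Y ≤ Real.log T := by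
    rw [hTd, Real.log_rpow hY0]
    nlinarith
  have huT : 8 * Y ≤ u * T := by
    rw [hTY]
    nlinarith
  have hT0 : 0 < T := by rw [hTY]; positivity
  set X' : ℕ := ⌊u * T / 2⌋₊ with hX'd
  have hX'le : (X' : ℝ) ≤ u * T / 2 := Nat.floor_le (by positivity)
  have hX'ge : u * T / 4 ≤ X' := by
    have h1 : u * T / 2 < (X' : ℝ) + 1 := Nat.lt_floor_add_one _
    linarith
  have hX'Y : 2 * Y ≤ X' := by linarith
  -- the blocks
  set P : ℕ → Finset ℕ := fun i => (Ioc (2 ^ i * X') (2 * (2 ^ i * X'))).filter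
    (fun n => (n : ℝ) + 1 ≤ 3 * T ∧ BadN K (8 * C) n) with hPd
  have hPsub : ∀ i, P i ⊆ Ioc (2 ^ i * X') (2 * (2 ^ i * X')) := fun i => Finset.filter_subset _ _
  have hPcard : ∀ i, ((P i).card : ℝ) ≤ e * A * T := fun i =>
    g1 (P i) (fun n hn => (Finset.mem_filter.1 hn).2)
  have hXi : ∀ i, X' ≤ 2 ^ i * X' := fun i => Nat.le_mul_of_pos_left _ (by positivity)
  have hXiR : ∀ i, (X' : ℝ) ≤ ((2 ^ i * X' : ℕ) : ℝ) := fun i => by exact_mod_cast hXi i
  have hXiY : ∀ i, Y ≤ ((2 ^ i * X' : ℕ) : ℝ) := fun i => by linarith [hXiR i]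
  have hXi1 : ∀ i, (1 : ℝ) ≤ ((2 ^ i * X' : ℕ) : ℝ) := fun i => by linarith [hXiY i]
  have hYX : ∀ i, Y ≤ ((2 ^ i * X' : ℕ) : ℝ) ^ (1 - δ / 4) := by
    intro i
    have h1 : (u / 4 * Y ^ (1 + δ)) ^ (1 - δ / 4) ≤ ((2 ^ i * X' : ℕ) : ℝ) ^ (1 - δ / 4) := by
      apply Real.rpow_le_rpow (by positivity) _ (by linarith)
      refine le_trans ?_ (hXiR i)
      refine le_trans (le_of_eq ?_) hX'ge
      rw [hTd]
      ring
    refine le_trans ?_ h1
    rw [Real.mul_rpow (by positivity) (by positivity), ← Real.rpow_mul hY0.le]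
    have h2 : u / 4 ≤ (u / 4) ^ (1 - δ / 4) := by
      calc u / 4 = (u / 4) ^ (1 : ℝ) := (Real.rpow_one _).symm
        _ ≤ (u / 4) ^ (1 - δ / 4) :=
          Real.rpow_le_rpow_of_exponent_ge (by positivity) (by linarith) (by linarith)
    have h3 : Y ^ (1 + δ / 2) ≤ Y ^ ((1 + δ) * (1 - δ / 4)) := by
      apply Real.rpow_le_rpow_of_exponent_le hY1
      nlinarith
    have h4 : Y ^ (1 + δ / 2) = Y * Y ^ (δ / 2) := by rw [Real.rpow_add hY0, Real.rpow_one]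
    have h5 : Y ≤ u / 4 * (Y * Y ^ (δ / 2)) := by
      rw [div_le_iff₀ hu0] at g3
      nlinarith
    calc Y ≤ u / 4 * (Y * Y ^ (δ / 2)) := h5
      _ ≤ (u / 4) ^ (1 - δ / 4) * Y ^ ((1 + δ) * (1 - δ / 4)) := by
          rw [← h4]
          apply mul_le_mul h2 h3 (by positivity) (by positivity)
  have hXκ : ∀ i, ((2 ^ i * X' : ℕ) : ℝ) ^ (-κ₁) ≤ Y ^ (-κ₁) := fun i =>
    Real.rpow_le_rpow_of_nonpos hY0 (hXiY i) (by linarith)
  have hXκ2 : ∀ i, ((2 ^ i * X' : ℕ) : ℝ) ^ (-κ₁) ≤ 2 := fun i =>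
    (Real.rpow_le_one_of_one_le_of_nonpos (hXi1 i) (by linarith)).trans (by norm_num)
  have hXpX : ∀ i, Xp ≤ 2 ^ i * X' := by
    intro i
    have : (Xp : ℝ) ≤ ((2 ^ i * X' : ℕ) : ℝ) := by linarith [hXiY i]
    exact_mod_cast this
  have hE := fun i => hP _ (hXpX i) (P i) (hPsub i) Y 2 hY0 (hYX i) (hXκ2 i) (by linarith)
  choose E hE1 hE2 hE3 using hE
  refine ⟨⋃ i ∈ Finset.range I, E i, Finset.measurableSet_biUnion _ fun i _ => hE1 i, ?_, ?_⟩
  · refine (measure_biUnion_finset_le _ _).trans ?_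
    refine (Finset.sum_le_sum fun i _ => (hE2 i).trans
      (ENNReal.ofReal_le_ofReal (mul_le_mul_of_nonneg_left (hXκ i) hY0.le))).trans ?_
    rw [Finset.sum_const, Finset.card_range, nsmul_eq_mul, ← ENNReal.ofReal_natCast,
      ← ENNReal.ofReal_mul (by positivity)]
    apply ENNReal.ofReal_le_ofReal
    calc (I : ℝ) * (Y * Y ^ (-κ₁)) ≤ Y ^ (κ₁ / 2) * (Y * Y ^ (-κ₁)) := by gcongr
      _ = Y ^ (1 - κ₁ / 2) := by
          nth_rw 2 [← Real.rpow_one Y]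
          rw [← Real.rpow_add hY0, ← Real.rpow_add hY0]
          congr 1
          ring
  · intro x hx1 hx2 hxE
    have hx0 : 0 < x := hY0.trans_le hx1
    have hxEi : ∀ i < I, x ∉ E i := by
      intro i hi hcon
      apply hxE
      simp only [Set.mem_iUnion]
      exact ⟨i, Finset.mem_range.2 hi, hcon⟩
    have hfin : ∀ i, (Prs (P i) x).Finite := fun i => prs_finite (P i) _ (hPsub i) x hx0
    have hcardi : ∀ i < I, (((hfin i).toFinset.card : ℕ) : ℝ) ≤ 4 * e * A * Y ^ δ := by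
      intro i hi
      have h1 := (abs_le.1 (hE3 i x hx1 hx2 (hxEi i hi))).2
      have h2 : (((hfin i).toFinset.card : ℕ) : ℝ) = ({q : ℕ × ℕ | q.2 ∈ P i ∧
          (q.1 : ℝ) * x - 2 < q.2 ∧ (q.2 : ℝ) < q.1 * x}.ncard : ℝ) := by
        rw [← Set.ncard_eq_toFinset_card _ (hfin i)]
        rfl
      rw [h2]
      have hXI : ((2 ^ i * X' : ℕ) : ℝ) ≤ 2 ^ I * T := by
        have h3 : 2 ^ i * X' ≤ 2 ^ I * X' :=
          Nat.mul_le_mul_right _ (Nat.pow_le_pow_right (by norm_num) hi.le)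
        have h4 : ((2 ^ i * X' : ℕ) : ℝ) ≤ 2 ^ I * X' := by exact_mod_cast h3
        have h5 : (X' : ℝ) ≤ T := by nlinarith
        calc ((2 ^ i * X' : ℕ) : ℝ) ≤ 2 ^ I * X' := h4
          _ ≤ 2 ^ I * T := by gcongr
      have herr : ((2 ^ i * X' : ℕ) : ℝ) ^ (1 - κ₁) ≤ e * A * T := by
        rw [sub_eq_add_neg, Real.rpow_add (by linarith [hXi1 i]), Real.rpow_one]
        have h6 : Y ^ (-κ₁) ≤ e * A / 2 ^ I := by
          rw [Real.rpow_neg hY0.le, inv_le_comm₀ (by positivity) (by positivity), inv_div]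
          exact g4
        calc ((2 ^ i * X' : ℕ) : ℝ) * ((2 ^ i * X' : ℕ) : ℝ) ^ (-κ₁) ≤
            (2 ^ I * T) * (e * A / 2 ^ I) := by
              apply mul_le_mul hXI ((hXκ i).trans h6) (by positivity) (by positivity)
          _ = e * A * T := by field_simp
      have h7 : 2 / x * ((P i).card : ℝ) + 2 / x * ((2 ^ i * X' : ℕ) : ℝ) ^ (1 - κ₁) ≤
          2 / Y * (e * A * T) + 2 / Y * (e * A * T) := by
        have h8 : 2 / x ≤ 2 / Y := by gcongr
        have h9 := hPcard i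
        gcongr
      have h10 : 2 / Y * (e * A * T) + 2 / Y * (e * A * T) = 4 * e * A * Y ^ δ := by
        rw [hTY]
        field_simp
        ring
      linarith
    -- the covering of the exceptional multipliers
    set S : Set ℕ := {k : ℕ | (k : ℝ) ≤ Y ^ δ ∧ ¬ ∃ z : ℝ, |z - k * x| ≤ 2 * L * Real.log Y ∧
            ∀ p : ℕ, p.Prime → C * Real.log Y < |z - p|} with hSd
    have hcov : S ⊆ ((Finset.range (⌊u * Y ^ δ⌋₊ + 1) ∪
        (Finset.range I).biUnion (fun i => (hfin i).toFinset.image Prod.fst) : Finset ℕ) : Set ℕ) := by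
      rintro k ⟨hk1, hk2⟩
      rw [Finset.mem_coe, Finset.mem_union]
      by_cases hk : (k : ℝ) ≤ u * Y ^ δ
      · left
        rw [Finset.mem_range]
        exact Nat.lt_succ_of_le (Nat.le_floor hk)
      · right
        push Not at hk
        have hy1 : u * T ≤ k * x := by
          rw [hTY]
          calc u * (Y * Y ^ δ) = (u * Y ^ δ) * Y := by ring
            _ ≤ k * x := by
              apply mul_le_mul hk.le hx1 hY0.le (Nat.cast_nonneg _)
        have hy2 : (k : ℝ) * x ≤ 2 * T := by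
          rw [hTY]
          calc (k : ℝ) * x ≤ Y ^ δ * (2 * Y) := by
                apply mul_le_mul hk1 hx2 hx0.le (by positivity)
            _ = 2 * (Y * Y ^ δ) := by ring
        obtain ⟨n, hn1, hn2, hn3⟩ := g2 (k * x) hy1 hy2 (by
          rintro ⟨z, hz1, hz2⟩
          apply hk2
          refine ⟨z, hz1.trans ?_, fun p hp => lt_of_le_of_lt ?_ (hz2 p hp)⟩
          · calc L * Real.log T ≤ L * (2 * Real.log Y) := by gcongr
              _ = 2 * L * Real.log Y := by ring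
          · gcongr)
        have hnX : X' < n := by
          have : (X' : ℝ) < n := by linarith
          exact_mod_cast this
        have hnI : n ≤ 2 ^ I * X' := by
          have h3 : (n : ℝ) ≤ 2 ^ I * X' := by
            have h4 : 8 / u * (u * T / 4) ≤ 2 ^ I * X' := by gcongr
            have h5 : 8 / u * (u * T / 4) = 2 * T := by
              field_simp
              ring
            linarith
          exact_mod_cast h3
        obtain ⟨i, hi, hi1, hi2⟩ := dyadic X' n I hnX hnI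
        rw [Finset.mem_biUnion]
        refine ⟨i, Finset.mem_range.2 hi, ?_⟩
        rw [Finset.mem_image]
        refine ⟨(k, n), ?_, rfl⟩
        rw [Set.Finite.mem_toFinset]
        refine ⟨?_, hn2, hn1⟩
        rw [hPd, Finset.mem_filter, Finset.mem_Ioc]
        exact ⟨⟨hi1, hi2⟩, by linarith, hn3⟩
    have h1 := Set.ncard_le_ncard hcov (Finset.finite_toSet _)
    rw [Set.ncard_coe_finset] at h1
    have h2 := h1.trans (Finset.card_union_le _ _)
    rw [Finset.card_range] at h2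
    have h3 : ((Finset.range I).biUnion (fun i => (hfin i).toFinset.image Prod.fst)).card ≤
        ∑ i ∈ Finset.range I, (hfin i).toFinset.card :=
      Finset.card_biUnion_le.trans (Finset.sum_le_sum fun i _ => Finset.card_image_le)
    have h4 : (S.ncard : ℝ) ≤ (⌊u * Y ^ δ⌋₊ + 1) + ∑ i ∈ Finset.range I,
        (((hfin i).toFinset.card : ℕ) : ℝ) := by
      exact_mod_cast h2.trans (Nat.add_le_add_left h3 _)
    have h5 : ∑ i ∈ Finset.range I, (((hfin i).toFinset.card : ℕ) : ℝ) ≤ I * (4 * e * A * Y ^ δ) := by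
      calc _ ≤ ∑ i ∈ Finset.range I, 4 * e * A * Y ^ δ :=
            Finset.sum_le_sum fun i hi => hcardi i (Finset.mem_range.1 hi)
        _ = I * (4 * e * A * Y ^ δ) := by rw [Finset.sum_const, Finset.card_range, nsmul_eq_mul]
    have h6 : (I : ℝ) * (4 * e * A * Y ^ δ) = ε / 4 * Y ^ δ := by
      rw [he]
      field_simp
      ring
    have h7 : (⌊u * Y ^ δ⌋₊ : ℝ) ≤ u * Y ^ δ := Nat.floor_le (by positivity)
    have h8 : 1 ≤ ε / 4 * Y ^ δ := by
      rw [div_le_iff₀ hε] at g6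
      linarith
    have h9 : u * Y ^ δ = ε / 2 * Y ^ δ := by rw [hu]
    linarith

end Pool.Agent.H749R6.AM
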